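import Pool.Agent.MP_954c34_an.Defs

open MeasureTheory Set
open scoped ComplexConjugate

noncomputable section

namespace Pool.Agent.MP_954c34_an

/-- A modulus of continuity: nonnegative, nondecreasing and subadditive on `[0, ∞)`. -/
structure IsModulus (θ : ℝ → ℝ) : Prop where
  nonneg : ∀ t, 0 ≤ t → 0 ≤ θ t
  mono : MonotoneOn θ (Ici 0)
  subadd : ∀ s t, 0 ≤ s → 0 ≤ t → θ (s + t) ≤ θ s + θ t

section Forms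

variable {V H : Type} [NormedAddCommGroup V] [NormedSpace ℂ V] [NormedAddCommGroup H]
  [InnerProductSpace ℂ H]

/-- `‖𝔄(t) - 𝔄(s)‖_{V → V*} ≤ C θ(|t - s|)` for `t, s ∈ [0, T]`, for some `C`. -/
def HasModulus (T : ℝ) (θ : ℝ → ℝ) (𝔄 : ℝ → V →L[ℂ] V →L⋆[ℂ] ℂ) : Prop :=
  ∃ C : ℝ, ∀ t ∈ Icc 0 T, ∀ s ∈ Icc 0 T, ‖𝔄 t - 𝔄 s‖ ≤ C * θ |t - s|

/-- `Re ⟨𝔄(t) v, v⟩ + κ ‖v‖²_H ≥ c ‖v‖²_V` for a.e. `t ∈ [0, T]`, for some `c > 0` and `κ`. -/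
def IsQuasiCoercive (val : V →L[ℂ] H) (T : ℝ) (𝔄 : ℝ → V →L[ℂ] V →L⋆[ℂ] ℂ) : Prop :=
  ∃ c κ : ℝ, 0 < c ∧ ∀ᵐ t ∂(volume.restrict (Icc 0 T)), ∀ v,
    c * ‖v‖ ^ 2 ≤ (𝔄 t v v).re + κ * ‖val v‖ ^ 2

/-- Maximal regularity in `H`: for every `f ∈ L²(0, T; H)` the Lions solution (every solution in
`H¹(0, T; V*) ∩ L²(0, T; V)` with `u(0) = 0`) lies in `H¹(0, T; H)`. -/
def HasMaxReg (val : V →L[ℂ] H) (T : ℝ) (𝔄 : ℝ → V →L[ℂ] V →L⋆[ℂ] ℂ) : Prop :=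
  ∀ f : ℝ → H, MemL2 T f → ∀ u : ℝ → V, IsLionsSolution val T 𝔄 f u → MemH1 T fun t => val (u t)

/-- `A` is measurable and uniformly elliptic for a.e. `(t, x) ∈ [0, T] × Ω`, and
`⟨𝔄(t) u, v⟩ = ∫_Ω A(t, x) ∇u ⬝ conj ∇v dx` for `t ∈ [0, T]`. -/
structure IsDivForm {E : Type} [MeasurableSpace E] {n : ℕ} (μ : Measure E) (Ω : Set E)
    (grad : Fin n → V →L[ℂ] Lp ℂ 2 (μ.restrict Ω)) (T : ℝ)
    (A : ℝ → E → Matrix (Fin n) (Fin n) ℂ) (𝔄 : ℝ → V →L[ℂ] V →L⋆[ℂ] ℂ) : Prop where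
  measurable : ∀ i j, Measurable fun p : ℝ × E => A p.1 p.2 i j
  elliptic : ∃ lam Lam : ℝ, 0 < lam ∧ lam ≤ Lam ∧
    ∀ᵐ p ∂((volume.restrict (Icc 0 T)).prod (μ.restrict Ω)), IsElliptic lam Lam (A p.1 p.2)
  apply_eq : ∀ t ∈ Icc 0 T, ∀ u v,
    𝔄 t u v = ∫ x in Ω, ∑ i, ∑ j, A t x i j * grad j u x * conj (grad i v x) ∂μ

end Forms

/-- A real scalar coefficient within `δ` of `1`, with modulus `θ` in time and second differences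
in space bounded by `θ(|y|²)`, uniformly. -/
structure IsMild {E : Type} [NormedAddCommGroup E] (θ : ℝ → ℝ) (δ : ℝ) (a : ℝ → E → ℝ) :
    Prop where
  close : ∀ t x, |a t x - 1| ≤ δ
  time : ∃ C : ℝ, ∀ t s x, |a t x - a s x| ≤ C * θ |t - s|
  space : ∃ C : ℝ, ∀ t x y, |a t (x + y) - 2 * a t x + a t (x - y)| ≤ C * θ (‖y‖ ^ 2)

end Pool.Agent.MP_954c34_an
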